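import Pool.Agent.H5.Dem.Stmts

/-!
# Project DEM, module SHAP: Shapiro's lemma for crossed homomorphisms (counting form)
-/

set_option autoImplicit false

namespace Pool.Agent.H5.Dem

namespace ShapAux

variable {G : Type} [Group G] (U : Subgroup G)

/-- The set of right cosets. -/
abbrev Q : Type := Quotient (QuotientGroup.rightRel U)

/-- The coset of an element. -/
def mk (g : G) : Q U := Quotient.mk (QuotientGroup.rightRel U) g

variable {U}

theorem mk_eq {a b : G} : mk U a = mk U b ↔ b * a⁻¹ ∈ U := by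
  unfold mk
  rw [Quotient.eq, QuotientGroup.rightRel_apply]

theorem mk_mul (u : U) (g : G) : mk U (u * g) = mk U g := by
  rw [eq_comm, mk_eq]
  simp

variable (U)

/-- Representatives, with `1` representing the trivial coset. -/
noncomputable def rep (q : Q U) : G := by
  classical exact if q = mk U 1 then 1 else q.out

variable {U}

theorem rep_one : rep U (mk U 1) = 1 := by simp [rep]

theorem mk_rep (q : Q U) : mk U (rep U q) = q := by
  classical
  unfold rep
  split_ifs with h
  · exact h.symm
  · exact Quotient.out_eq q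

theorem uu_mem (g : G) : g * (rep U (mk U g))⁻¹ ∈ U := by
  rw [← mk_eq, mk_rep]

/-- The component in `U`. -/
noncomputable def uu (g : G) : U := ⟨g * (rep U (mk U g))⁻¹, uu_mem g⟩

theorem uu_mul_rep (g : G) : (uu (U := U) g : G) * rep U (mk U g) = g := by
  simp [uu]

theorem uu_mul (u : U) (g : G) : uu (U := U) ((u : G) * g) = u * uu g := by
  apply Subtype.ext
  simp [uu, mk_mul, mul_assoc]

theorem mk_coe (u : U) : mk U (u : G) = mk U 1 := by
  have := mk_mul u (1 : G)
  simpa using this

theorem uu_coe (u : U) : uu (U := U) (u : G) = u := by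
  apply Subtype.ext
  simp [uu, mk_coe, rep_one]

theorem uu_rep (q : Q U) : uu (U := U) (rep U q) = 1 := by
  apply Subtype.ext
  simp [uu, mk_rep]

variable [TopologicalSpace G] {M : Type} [AddCommGroup M]

/-- The functions `κ : G → M` with `κ (u g) = κ u + ρ u (κ g)`. -/
def K (ρ : U →* Au M) : Set (G → M) :=
  {κ | IsLocallyConstant κ ∧ ∀ (u : U) (g : G), κ (u * g) = κ u + ρ u (κ g)}

theorem K_one {ρ : U →* Au M} {κ : G → M} (h : ∀ (u : U) (g : G), κ (u * g) = κ u + ρ u (κ g)) :
    κ 1 = 0 := by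
  have := h 1 1
  simpa using this

theorem Z1_one {Γ A : Type} [Group Γ] [TopologicalSpace Γ] [AddCommGroup A] {σ : Γ →* Au A}
    {c : Γ → A} (h : c ∈ Z1 σ) : c 1 = 0 := by
  have := h.2 1 1
  simpa using this

theorem locConst [IsTopologicalGroup G] (hU : IsOpen (U : Set G)) (ρ : U →* Au M)
    (hρ : IsOpen (ρ.ker : Set U)) (κ : G → M)
    (h : ∀ (u : U) (g : G), κ (u * g) = κ u + ρ u (κ g))
    (hc : IsLocallyConstant (fun u : U => κ u)) : IsLocallyConstant κ := by
  rw [IsLocallyConstant.iff_eventually_eq]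
  intro g
  have hW : IsOpen ((Subtype.val : U → G) ''
      ((fun u : U => κ u) ⁻¹' {0} ∩ (ρ.ker : Set U))) := by
    apply hU.isOpenMap_subtype_val
    exact (hc.isOpen_fiber 0).inter hρ
  have h1 : (1 : G) ∈ (Subtype.val : U → G) ''
      ((fun u : U => κ u) ⁻¹' {0} ∩ (ρ.ker : Set U)) := by
    refine ⟨1, ⟨?_, ?_⟩, rfl⟩
    · simpa using K_one h
    · simp
  have hcont : Filter.Tendsto (fun g' : G => g' * g⁻¹) (nhds g) (nhds 1) := by
    have : Continuous (fun g' : G => g' * g⁻¹) := continuous_id.mul continuous_const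
    simpa using this.tendsto g
  have := hcont (hW.mem_nhds h1)
  filter_upwards [this] with g' hg'
  obtain ⟨u, ⟨hu1, hu2⟩, hu3⟩ := hg'
  have e : g' = u * g := by rw [hu3]; simp
  have hu1' : κ (u : G) = 0 := by simpa using hu1
  have hu2' : ρ u = 1 := hu2
  rw [e, h, hu1', hu2']
  simp

open Classical in
/-- The function attached to a crossed homomorphism and values at representatives. -/
noncomputable def ext (ρ : U →* Au M) (c : U → M) (m : {q : Q U // q ≠ mk U 1} → M) (g : G) :
    M :=
  c (uu g) + ρ (uu g) (if h : mk U g = mk U 1 then 0 else m ⟨mk U g, h⟩)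

theorem ext_mul (ρ : U →* Au M) (c : U → M) (hc : ∀ g h, c (g * h) = c g + ρ g (c h))
    (m : {q : Q U // q ≠ mk U 1} → M) (u : U) (g : G) :
    ext ρ c m (u * g) = c u + ρ u (ext ρ c m g) := by
  classical
  unfold ext
  simp only [uu_mul, mk_mul, hc, map_mul, map_add]
  rw [LinearEquiv.mul_apply, add_assoc]

theorem ext_coe (ρ : U →* Au M) (c : U → M)
    (m : {q : Q U // q ≠ mk U 1} → M) (u : U) : ext ρ c m u = c u := by
  classical
  unfold ext
  simp [uu_coe, mk_coe]

theorem ext_rep (ρ : U →* Au M) (c : U → M) (h0 : c 1 = 0)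
    (m : {q : Q U // q ≠ mk U 1} → M) (q : {q : Q U // q ≠ mk U 1}) :
    ext ρ c m (rep U q.1) = m q := by
  classical
  unfold ext
  simp [uu_rep, mk_rep, h0, q.2]

/-- The first equivalence. -/
noncomputable def equiv1 [IsTopologicalGroup G] (hU : IsOpen (U : Set G)) (ρ : U →* Au M)
    (hρ : IsOpen (ρ.ker : Set U)) :
    K ρ ≃ (Z1 ρ) × ({q : Q U // q ≠ mk U 1} → M) where
  toFun κ := (⟨fun u => κ.1 u, κ.2.1.comp_continuous continuous_subtype_val, fun g h => by
      simpa using κ.2.2 g h⟩, fun q => κ.1 (rep U q.1))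
  invFun p := ⟨ext ρ p.1.1 p.2, by
    have h : ∀ (u : U) (g : G), ext ρ p.1.1 p.2 (u * g) = ext ρ p.1.1 p.2 u +
        ρ u (ext ρ p.1.1 p.2 g) := by
      intro u g
      rw [ext_mul ρ p.1.1 p.1.2.2, ext_coe]
    refine ⟨locConst hU ρ hρ _ h ?_, h⟩
    simp only [ext_coe]
    exact p.1.2.1⟩
  left_inv κ := by
    classical
    apply Subtype.ext
    funext g
    have hg := κ.2.2 (uu g) (rep U (mk U g))
    rw [uu_mul_rep] at hg
    change ext ρ (fun u : U => κ.1 u) (fun q : {q : Q U // q ≠ mk U 1} => κ.1 (rep U q.1)) g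
      = κ.1 g
    rw [hg]
    unfold ext
    congr 2
    split_ifs with h
    · rw [h, rep_one]; exact (K_one κ.2.2).symm
    · rfl
  right_inv p := by
    apply Prod.ext
    · apply Subtype.ext
      funext u
      exact ext_coe ρ _ _ u
    · funext q
      exact ext_rep ρ _ (Z1_one p.1.2) _ q

/-- The second equivalence. -/
noncomputable def equiv2 [IsTopologicalGroup G] [Finite (Q U)] (ρ : U →* Au M) :
    Z1 (indAct U ρ) ≃ K ρ where
  toFun C := ⟨fun g => (C.1 g).1 1, by
    refine ⟨C.2.1.comp (fun f : Ind U ρ => f.1 1), fun u g => ?_⟩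
    have h1 := C.2.2 (u : G) g
    have h2 : (C.1 ((u : G) * g)).1 1 = (C.1 (u : G)).1 1 + (C.1 g).1 (1 * u) := by
      rw [h1]; rfl
    have h3 := (C.1 g).2 u 1
    rw [one_mul] at h2
    rw [mul_one] at h3
    rw [h3] at h2
    exact h2⟩
  invFun κ := ⟨fun h => ⟨fun g => κ.1 (g * h) - κ.1 g, fun u g => by
      change κ.1 (u * g * h) - κ.1 (u * g) = ρ u (κ.1 (g * h) - κ.1 g)
      rw [mul_assoc, κ.2.2 u (g * h), κ.2.2 u g, map_sub]; abel⟩, by
    constructor
    · have hinj : Function.Injective (fun (f : Ind U ρ) (q : Q U) => f.1 (rep U q)) := by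
        intro f k hfk
        apply Subtype.ext
        funext g
        have h1 := f.2 (uu g) (rep U (mk U g))
        have h2 := k.2 (uu g) (rep U (mk U g))
        rw [uu_mul_rep] at h1 h2
        have h3 := congrFun hfk (mk U g)
        simp only at h3
        rw [h1, h2, h3]
      refine IsLocallyConstant.desc _ (fun (f : Ind U ρ) (q : Q U) => f.1 (rep U q)) ?_ hinj
      rw [IsLocallyConstant.iff_eventually_eq]
      intro h
      have key : ∀ q : Q U, ∀ᶠ h' in nhds h, κ.1 (rep U q * h') = κ.1 (rep U q * h) := by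
        intro q
        have hl : IsLocallyConstant (fun h' => κ.1 (rep U q * h')) :=
          κ.2.1.comp_continuous (continuous_const.mul continuous_id)
        exact hl.eventually_eq h
      have := Filter.eventually_all.2 key
      filter_upwards [this] with h' hh'
      funext q
      simp [hh' q]
    · intro g h
      apply Subtype.ext
      funext t
      change κ.1 (t * (g * h)) - κ.1 t = (κ.1 (t * g) - κ.1 t) + (κ.1 (t * g * h) - κ.1 (t * g))
      rw [mul_assoc]; abel⟩
  left_inv C := by
    apply Subtype.ext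
    funext h
    apply Subtype.ext
    funext g
    have h1 := C.2.2 g h
    have h2 : (C.1 (g * h)).1 1 = (C.1 g).1 1 + (C.1 h).1 (1 * g) := by
      rw [h1]; rfl
    change (C.1 (g * h)).1 1 - (C.1 g).1 1 = (C.1 h).1 g
    rw [h2, one_mul]; abel
  right_inv κ := by
    apply Subtype.ext
    funext g
    change κ.1 (1 * g) - κ.1 1 = κ.1 g
    rw [K_one κ.2.2, one_mul, sub_zero]

end ShapAux

open ShapAux in
/-- Module SHAP. -/
theorem shap : SHAPStmt := by
  intro G _ _ hP U hU M _ _ ρ hρ
  have := hP.topGroup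
  have := hP.compact
  have : Finite (G ⧸ U) := Subgroup.quotient_finite_of_isOpen U hU
  have : Finite (ShapAux.Q U) :=
    Finite.of_equiv _ (QuotientGroup.quotientRightRelEquivQuotientLeftRel U).symm
  have hcard : Nat.card (ShapAux.Q U) = U.index :=
    Nat.card_congr (QuotientGroup.quotientRightRelEquivQuotientLeftRel U)
  rw [Nat.card_congr (equiv2 ρ), Nat.card_congr (equiv1 hU ρ hρ), Nat.card_prod, Nat.card_fun]
  congr 2
  classical
  have := Fintype.ofFinite (ShapAux.Q U)
  rw [← hcard, Nat.card_eq_fintype_card, Nat.card_eq_fintype_card]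
  have := Fintype.card_subtype_compl (fun q : ShapAux.Q U => q = mk U 1)
  simp only [Fintype.card_subtype_eq] at this
  rw [← this]

end Pool.Agent.H5.Dem
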